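import Pool.Agent.Lib.MP_30b5ba_nt.P.Half
import Pool.Agent.Lib.MP_30b5ba_nt.P.Fin

/-! From intervals inside `[0,1]` to all bounded intervals, by rescaling `N`. -/

namespace Pool.Agent.Lib.MP_30b5ba_nt.All

open Finset Filter Topology MeasureTheory Pool.Agent.Lib.MP_30b5ba_nt.P
open Pool.Agent.Lib.MP_30b5ba_nt.P.Half
open scoped Classical

theorem box_le {α a b A B μ a' b' A' B' μ' : ℝ} {N M : ℕ} (h1 : a' / M ≤ a / N)
    (h2 : b / N ≤ b' / M) (h3 : A' * M ≤ A * N) (h4 : B * N ≤ B' * M)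
    (h5 : μ * N ^ 2 ≤ μ' * M ^ 2) : box α a b N A B μ ≤ box α a' b' M A' B' μ' := by
  refine card_le_card (s := bset α a b N A B μ) (t := bset α a' b' M A' B' μ') fun p hp => ?_
  rw [mem_bset] at hp ⊢
  obtain ⟨⟨g1, g2, g3⟩, g4, g5, g6⟩ := hp
  exact ⟨⟨g1, g2, g3.trans h5⟩, h3.trans g4, g5.trans_le h4, g6.mono h1 h2⟩

theorem scale {S : ℕ} (hS : 1 ≤ S) {t : ℝ} (ht : 1 < t) : ∀ᶠ N : ℕ in atTop,
    1 ≤ N / S ∧ (S : ℝ) * (N / S : ℕ) ≤ N ∧ (N : ℝ) ≤ t * S * (N / S : ℕ) := by
  have hM : Tendsto (fun N : ℕ => N / S) atTop atTop := Nat.tendsto_div_const_atTop (by omega)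
  have hM' : Tendsto (fun N : ℕ => ((N / S : ℕ) : ℝ)) atTop atTop :=
    tendsto_natCast_atTop_atTop.comp hM
  filter_upwards [hM.eventually_ge_atTop 1, hM'.eventually_ge_atTop (1 / (t - 1))] with N h1 h2
  have hS' : (0 : ℝ) < S := by exact_mod_cast hS
  refine ⟨h1, by exact_mod_cast Nat.mul_div_le N S, ?_⟩
  have h3 : (N : ℝ) ≤ S * ((N / S : ℕ) + 1) := by
    exact_mod_cast (Nat.lt_mul_div_succ N hS).le
  rw [div_le_iff₀ (by linarith)] at h2
  nlinarith

/-- the count in a balanced box, for all bounded arcs. -/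
def BoxAll : Prop :=
  ∀ c α : ℝ, 0 < c → Bad c α → ∀ a b A B μ : ℝ, 0 ≤ a → a ≤ b → 0 < A → A < B → 0 ≤ μ →
    Tendsto (fun N : ℕ => (box α a b N A B μ : ℝ) / N) atTop
      (𝓝 (Real.log (B / A) * μ * (b - a)))

theorem exists_right {f : ℝ → ℝ} (hf : ContinuousAt f 1) {P : ℝ → Prop}
    (hP : ∀ᶠ y in 𝓝 (f 1), P y) {Q : ℝ → Prop} (hQ : ∀ᶠ t in 𝓝 (1 : ℝ), Q t) :
    ∃ t, 1 < t ∧ P (f t) ∧ Q t := by
  have h1 : ∀ᶠ t in 𝓝[>] (1 : ℝ), P (f t) ∧ Q t :=
    ((hf.tendsto.eventually hP).and hQ).filter_mono nhdsWithin_le_nhds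
  obtain ⟨t, h2, h3⟩ := (h1.and self_mem_nhdsWithin).exists
  exact ⟨t, h3, h2⟩

theorem boxAll (h : BoxStmt) : BoxAll := by
  intro c α hc hα a b A B μ ha hab hA hAB hμ
  obtain ⟨S, hS⟩ := exists_nat_ge (max b 1)
  have hbS : b ≤ S := (le_max_left _ _).trans hS
  have hS1 : (1 : ℝ) ≤ S := (le_max_right _ _).trans hS
  have hS' : 1 ≤ S := by exact_mod_cast hS1
  have hS0 : (0 : ℝ) < S := by linarith
  have hb : 0 ≤ b := ha.trans hab
  have hB : 0 < B := hA.trans hAB
  have hM : Tendsto (fun N : ℕ => N / S) atTop atTop := Nat.tendsto_div_const_atTop (by omega)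
  refine tendsto_order.2 ⟨fun l hl => ?_, fun u hu => ?_⟩
  · rcases hab.eq_or_lt with rfl | hab'
    · refine Eventually.of_forall fun N => lt_of_lt_of_le (by simpa using hl) (by positivity)
    have hcont : ContinuousAt (fun t : ℝ => Real.log (B / (A * t)) * μ * (b / t - a) / t) 1 := by
      refine ContinuousAt.div (ContinuousAt.mul (ContinuousAt.mul (ContinuousAt.log ?_ ?_)
        continuousAt_const) ?_) continuousAt_id one_ne_zero
      · exact continuousAt_const.div (continuousAt_const.mul continuousAt_id) (by positivity)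
      · positivity
      · exact (continuousAt_const.div continuousAt_id one_ne_zero).sub continuousAt_const
    have q1 : ∀ᶠ t in 𝓝 (1 : ℝ), a * t < b :=
      (continuousAt_const.mul continuousAt_id).eventually_lt continuousAt_const (by simpa using hab')
    have q2 : ∀ᶠ t in 𝓝 (1 : ℝ), A * t < B :=
      (continuousAt_const.mul continuousAt_id).eventually_lt continuousAt_const (by simpa using hAB)
    obtain ⟨t, ht, h1, h2, h3⟩ := exists_right hcont (P := fun y => l < y)
      (lt_mem_nhds (by simpa using hl)) (q1.and q2)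
    have ht0 : 0 < t := by linarith
    have hl2 := ((h c α hc hα (a / S) (b / (S * t)) (A * S * t) (B * S) (μ * S ^ 2) (by positivity)
      (by rw [div_le_div_iff₀ hS0 (by positivity)]; nlinarith)
      (by rw [div_le_one (by positivity)]; nlinarith) (by positivity) (by nlinarith)
      (by positivity)).comp hM).div_const (t * S)
    have e : Real.log (B * S / (A * S * t)) * (μ * S ^ 2) * (b / (S * t) - a / S) / (t * S) =
        Real.log (B / (A * t)) * μ * (b / t - a) / t := by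
      rw [show B * S / (A * S * t) = B / (A * t) by field_simp]
      field_simp
    rw [e] at hl2
    filter_upwards [(tendsto_order.1 hl2).1 l h1, scale hS' ht] with N g1 ⟨g2, g3, g4⟩
    have hM0 : (0 : ℝ) < (N / S : ℕ) := by exact_mod_cast g2
    have hN0 : (0 : ℝ) < N := lt_of_lt_of_le (by positivity) g3
    refine g1.trans_le ?_
    have g5 : box α (a / S) (b / (S * t)) (N / S) (A * S * t) (B * S) (μ * S ^ 2) ≤
        box α a b N A B μ := by
      refine box_le ?_ ?_ ?_ ?_ ?_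
      · rw [div_div]
        exact div_le_div_of_nonneg_left ha (by positivity) g3
      · rw [div_div]
        exact div_le_div_of_nonneg_left hb hN0 (by linarith)
      · nlinarith
      · nlinarith
      · rw [mul_assoc, ← mul_pow]
        gcongr
    simp only [Function.comp]
    rw [div_div]
    exact div_le_div₀ (by positivity) (by exact_mod_cast g5) hN0 (by linarith)
  · have hcont : ContinuousAt (fun t : ℝ => Real.log (B * t / A) * (μ * t ^ 2) * (b - a / t)) 1 := by
      refine ContinuousAt.mul (ContinuousAt.mul (ContinuousAt.log ?_ ?_) ?_) ?_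
      · exact (continuousAt_const.mul continuousAt_id).div_const _
      · positivity
      · exact continuousAt_const.mul (continuousAt_id.pow 2)
      · exact continuousAt_const.sub (continuousAt_const.div continuousAt_id one_ne_zero)
    obtain ⟨t, ht, h1, -⟩ := exists_right hcont (P := fun y => y < u)
      (gt_mem_nhds (by simpa using hu)) (Q := fun _ => True) (Eventually.of_forall fun _ => trivial)
    have ht0 : 0 < t := by linarith
    have hl2 := ((h c α hc hα (a / (S * t)) (b / S) (A * S) (B * S * t) (μ * S ^ 2 * t ^ 2)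
      (by positivity)
      (by rw [div_le_div_iff₀ (by positivity) hS0]; nlinarith [mul_nonneg hb hS0.le])
      (by rwa [div_le_one hS0]) (by positivity) (by nlinarith [mul_pos hB hS0])
      (by positivity)).comp hM).div_const S
    have e : Real.log (B * S * t / (A * S)) * (μ * S ^ 2 * t ^ 2) * (b / S - a / (S * t)) / S =
        Real.log (B * t / A) * (μ * t ^ 2) * (b - a / t) := by
      rw [show B * S * t / (A * S) = B * t / A by field_simp]
      field_simp
    rw [e] at hl2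
    filter_upwards [(tendsto_order.1 hl2).2 u h1, scale hS' ht] with N g1 ⟨g2, g3, g4⟩
    have hM0 : (0 : ℝ) < (N / S : ℕ) := by exact_mod_cast g2
    have hN0 : (0 : ℝ) < N := lt_of_lt_of_le (by positivity) g3
    refine lt_of_le_of_lt ?_ g1
    have g5 : box α a b N A B μ ≤
        box α (a / (S * t)) (b / S) (N / S) (A * S) (B * S * t) (μ * S ^ 2 * t ^ 2) := by
      refine box_le ?_ ?_ ?_ ?_ ?_
      · rw [div_div]
        exact div_le_div_of_nonneg_left ha hN0 (by linarith)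
      · rw [div_div]
        exact div_le_div_of_nonneg_left hb (by positivity) g3
      · nlinarith
      · nlinarith
      · rw [show μ * S ^ 2 * t ^ 2 * ((N / S : ℕ) : ℝ) ^ 2 = μ * (t * S * (N / S : ℕ)) ^ 2 by ring]
        gcongr
    simp only [Function.comp]
    rw [div_div]
    exact div_le_div₀ (by positivity) (by exact_mod_cast g5) (by positivity) (by linarith)

theorem uiAll (h : UIStmt) {c α : ℝ} (hc : 0 < c) (hα : Bad c α) {S : ℕ} (hS : 1 ≤ S) {ε : ℝ}
    (hε : 0 < ε) : ∃ δ : ℝ, 0 < δ ∧ ∀ᶠ N : ℕ in atTop, ∀ E ⊆ Icc 1 (2 * N), (#E : ℝ) ≤ δ * N →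
      (#{p ∈ E ×ˢ Icc 1 (2 * N) | Arc 0 (S / N) (α * ((p.1 * p.2 : ℕ) : ℝ))} : ℝ) ≤ ε * N := by
  have hS1 : (1 : ℝ) ≤ S := by exact_mod_cast hS
  obtain ⟨δ, hδ, h1⟩ := h c α hc hα (4 * S) ε (by linarith) hε
  have hM : Tendsto (fun N : ℕ => N / S) atTop atTop := Nat.tendsto_div_const_atTop (by omega)
  refine ⟨δ / (2 * S), by positivity, ?_⟩
  filter_upwards [hM.eventually h1, scale hS one_lt_two] with N g1 ⟨g2, g3, g4⟩ E hE hc'
  have hM0 : (0 : ℝ) < (N / S : ℕ) := by exact_mod_cast g2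
  have hN0 : (0 : ℝ) < N := lt_of_lt_of_le (by positivity) g3
  have hsub : Icc 1 (2 * N) ⊆ Icc 1 ⌊4 * (S : ℝ) * (N / S : ℕ)⌋₊ :=
    Icc_subset_Icc_right (Nat.le_floor (by push_cast; linarith))
  have g5 := g1 E (hE.trans hsub) (by
    refine hc'.trans ?_
    rw [div_mul_eq_mul_div, div_le_iff₀ (by positivity)]
    nlinarith)
  refine le_trans (Nat.cast_le.2 (card_le_card fun p hp => ?_)) (g5.trans ?_)
  · rw [mem_filter, mem_product] at hp ⊢
    refine ⟨⟨hp.1.1, hsub hp.1.2⟩, hp.2.mono le_rfl ?_⟩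
    rw [div_le_div_iff₀ hN0 hM0]
    linarith
  · have : ((N / S : ℕ) : ℝ) ≤ N := by nlinarith
    gcongr

theorem resc {S : ℝ} (hS : 0 < S) (X d : ℝ) : X * d / 2 = S * (X * (d / S) / 2) := by
  field_simp

theorem upper_sum' {n : ℕ} (hn : 1 ≤ n) {d S : ℝ} (hd : 0 ≤ d) (hS : 0 < S) (hd1 : d ≤ S) :
    ∑ k ∈ Ico 1 (2 * n), Real.log (((k : ℝ) + 1) / n / (k / n)) *
      ((k + 1) / n * ((min (k : ℝ) (2 * n - k) + 1) / n)) * d / 2 ≤ d / 2 + 3 * S / n := by
  have h := mul_le_mul_of_nonneg_left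
    (upper_sum hn (d := d / S) (by positivity) (by rwa [div_le_one hS])) hS.le
  rw [mul_sum] at h
  refine le_trans (le_of_eq (sum_congr rfl fun k _ => resc hS _ _)) (h.trans (le_of_eq ?_))
  field_simp

theorem lower_sum' {n : ℕ} (hn : 1 ≤ n) {d S : ℝ} (hd : 0 ≤ d) (hS : 0 < S) (hd1 : d ≤ S) :
    d / 2 - 2 * S / n ≤ ∑ k ∈ Ico 1 (2 * n), Real.log (((k : ℝ) + 1) / n / (k / n)) *
      (k / n * ((min (k : ℝ) (2 * n - k) - 1) / n)) * d / 2 := by
  have h := mul_le_mul_of_nonneg_left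
    (lower_sum hn (d := d / S) (by positivity) (by rwa [div_le_one hS])) hS.le
  rw [mul_sum] at h
  refine le_trans (le_of_eq ?_) (h.trans (le_of_eq (sum_congr rfl fun k _ => (resc hS _ _).symm)))
  field_simp

theorem sset_lim' (h1 : BoxAll) {c α : ℝ} (hc : 0 < c) (hα : Bad c α) {a b A B μ : ℝ}
    (ha : 0 ≤ a) (hab : a ≤ b) (hA : 0 < A) (hAB : A < B) (hμ : 0 ≤ μ) :
    Tendsto (fun N : ℕ => (#(sset α a b N A B μ) : ℝ) / N) atTop
      (𝓝 (Real.log (B / A) * μ * (b - a) / 2)) := by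
  have key : ∀ k l : ℕ, 1 ≤ k → 1 ≤ l → Tendsto (fun N : ℕ =>
      (#{p ∈ bset α a b N A B μ | k ∣ p.1 ∧ l ∣ p.2} : ℝ) / N) atTop
      (𝓝 (Real.log (B / A) * μ * (b - a) / (k * l))) := by
    intro k l hk hl
    have hk' : (0 : ℝ) < k := by exact_mod_cast hk
    have hl' : (0 : ℝ) < l := by exact_mod_cast hl
    have h := h1 (c / ((k * l : ℕ) : ℝ)) (((k * l : ℕ) : ℝ) * α) (by push_cast; positivity)
      (bad_mul hα (Nat.mul_pos hk hl)) a b (A / k) (B / k) (μ / ((k * l : ℕ) : ℝ)) ha hab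
      (by positivity) (div_lt_div_of_pos_right hAB hk') (by positivity)
    have e : Real.log (B / k / (A / k)) * (μ / ((k * l : ℕ) : ℝ)) * (b - a) =
        Real.log (B / A) * μ * (b - a) / (k * l) := by
      rw [div_div_div_cancel_right₀ hk'.ne']
      push_cast
      ring
    rw [e] at h
    simpa only [card_dvd α a b _ A B μ hk hl] using h
  have h := (((key 1 1 le_rfl le_rfl).add ((key 2 2 one_le_two one_le_two).const_mul 2)).sub
    (key 2 1 one_le_two le_rfl)).sub (key 1 2 le_rfl one_le_two)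
  have e : Real.log (B / A) * μ * (b - a) / (((1 : ℕ) : ℝ) * ((1 : ℕ) : ℝ)) +
      2 * (Real.log (B / A) * μ * (b - a) / (((2 : ℕ) : ℝ) * ((2 : ℕ) : ℝ))) -
      Real.log (B / A) * μ * (b - a) / (((2 : ℕ) : ℝ) * ((1 : ℕ) : ℝ)) -
      Real.log (B / A) * μ * (b - a) / (((1 : ℕ) : ℝ) * ((2 : ℕ) : ℝ)) =
      Real.log (B / A) * μ * (b - a) / 2 := by
    push_cast
    ring
  rw [e] at h
  refine h.congr fun N => ?_
  have h2 := congrArg (Nat.cast : ℕ → ℝ) (card_parity (bset α a b N A B μ))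
  push_cast at h2
  rw [sset, ← mul_div_assoc, ← add_div, ← sub_div, ← sub_div]
  congr 1
  linarith

/-- the number of pairs `j < i ≤ N` with `α i² - α j² ∈ [a/N, b/N]` modulo one. -/
noncomputable def hcount (α a b : ℝ) (N : ℕ) : ℕ :=
  #{p ∈ Icc 1 N ×ˢ Icc 1 N | p.2 < p.1 ∧ Arc (a / N) (b / N) (α * p.1 ^ 2 - α * p.2 ^ 2)}

theorem halfPos (h1 : BoxAll) (h2 : UIStmt) {c α : ℝ} (hc : 0 < c) (hα : Bad c α) {a b : ℝ}
    (ha : 0 ≤ a) (hab : a ≤ b) :
    Tendsto (fun N : ℕ => (hcount α a b N : ℝ) / N) atTop (𝓝 ((b - a) / 2)) := by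
  simp only [hcount, card_tri]
  obtain ⟨S, hS⟩ := exists_nat_ge (max b 1)
  have hb : b ≤ S := (le_max_left _ _).trans hS
  have hS1 : (1 : ℝ) ≤ S := (le_max_right _ _).trans hS
  have hS' : 1 ≤ S := by exact_mod_cast hS1
  have hS0 : (0 : ℝ) < S := by linarith
  have hd : 0 ≤ b - a := by linarith
  have hd1 : b - a ≤ S := by linarith
  have hlim : ∀ n : ℕ, 1 ≤ n → ∀ μ : ℕ → ℝ, (∀ k ∈ Ico 1 (2 * n), 0 ≤ μ k) →
      Tendsto (fun N : ℕ => ∑ k ∈ Ico 1 (2 * n),
        (#(sset α a b N (k / n) ((k + 1) / n) (μ k)) : ℝ) / N) atTop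
        (𝓝 (∑ k ∈ Ico 1 (2 * n),
          Real.log (((k : ℝ) + 1) / n / (k / n)) * μ k * (b - a) / 2)) := by
    intro n hn μ hμ
    refine tendsto_finsetSum _ fun k hk => ?_
    have hn' : (0 : ℝ) < n := by exact_mod_cast hn
    have hk' : (0 : ℝ) < k := by exact_mod_cast (mem_Ico.1 hk).1
    exact sset_lim' h1 hc hα ha hab (by positivity)
      (div_lt_div_of_pos_right (by linarith) hn') (hμ k hk)
  refine tendsto_order.2 ⟨fun l hl => ?_, fun u hu => ?_⟩
  · obtain ⟨n, hn⟩ := exists_nat_gt (2 * S / ((b - a) / 2 - l))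
    have h0 : 0 < (b - a) / 2 - l := by linarith
    have hn' : (0 : ℝ) < n := lt_trans (by positivity) hn
    have hn1 : 1 ≤ n := by exact_mod_cast hn'
    have h3 : 2 * S / (n : ℝ) < (b - a) / 2 - l := by
      rw [div_lt_iff₀ h0] at hn
      rw [div_lt_iff₀ hn']
      linarith
    have h4 := hlim n hn1 (fun k => k / n * ((min (k : ℝ) (2 * n - k) - 1) / n)) fun k hk => by
      have := one_le_min hk
      have : 0 ≤ min (k : ℝ) (2 * n - k) - 1 := by linarith
      positivity
    have h5 := lower_sum' hn1 hd hS0 hd1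
    filter_upwards [(tendsto_order.1 h4).1 l (by linarith), eventually_ge_atTop 1] with N h6 hN
    refine h6.trans_le ?_
    rw [← sum_div, card_split α a b hN hn1]
    gcongr
    push_cast
    refine le_trans (sum_le_sum fun k hk => ?_) (le_add_of_nonneg_left (by positivity))
    exact_mod_cast card_le_card (sub_fib hN hn1 (mem_Ico.1 hk).1)
  · have h0 : 0 < (u - (b - a) / 2) / 2 := by linarith
    set ε := (u - (b - a) / 2) / 2 with hε
    obtain ⟨δ, hδ, h7⟩ := uiAll h2 hc hα hS' h0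
    obtain ⟨n, hn⟩ := exists_nat_gt (max (3 * S / ε) (1 / δ))
    have hn' : (0 : ℝ) < n := lt_trans (lt_max_of_lt_left (by positivity)) hn
    have hn1 : 1 ≤ n := by exact_mod_cast hn'
    have h3 : 3 * S / (n : ℝ) < ε := by
      have := (le_max_left _ _).trans_lt hn
      rw [div_lt_iff₀ h0] at this
      rw [div_lt_iff₀ hn']
      linarith
    have h3' : 1 / (n : ℝ) ≤ δ := by
      have := (le_max_right _ _).trans_lt hn
      rw [div_lt_iff₀ hδ] at this
      rw [div_le_iff₀ hn']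
      linarith
    have h4 := hlim n hn1 (fun k => (k + 1) / n * ((min (k : ℝ) (2 * n - k) + 1) / n))
      fun k hk => by
        have := one_le_min hk
        positivity
    have h5 := upper_sum' hn1 hd hS0 hd1
    filter_upwards [(tendsto_order.1 h4).2 (u - ε) (by linarith), eventually_ge_atTop 1, h7]
      with N h6 hN h8
    have hN' : (0 : ℝ) < N := by exact_mod_cast hN
    have h9 := h8 (Icc 1 (N / n)) (Icc_subset_Icc_right ((Nat.div_le_self _ _).trans (by omega)))
      (by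
        rw [Nat.card_Icc, Nat.add_sub_cancel]
        calc ((N / n : ℕ) : ℝ) ≤ N / n := Nat.cast_div_le
          _ = 1 / n * N := by ring
          _ ≤ δ * N := by gcongr)
    have h10 : (#{p ∈ tri α a b N | p.1 * n / N = 0} : ℝ) ≤ ε * N := by
      refine le_trans ?_ h9
      refine Nat.cast_le.2 (card_le_card fun p hp => ?_)
      rw [mem_filter, mem_tri] at hp
      obtain ⟨⟨g1, g2, g3, -, g5⟩, g6⟩ := hp
      rw [mem_filter, mem_product, mem_Icc, mem_Icc]
      have g7 : p.1 * n < N := by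
        by_contra g
        have := (Nat.le_div_iff_mul_le hN).2 (show 1 * N ≤ p.1 * n by omega)
        omega
      exact ⟨⟨⟨by omega, (Nat.le_div_iff_mul_le hn1).2 g7.le⟩, g1, by omega⟩,
        g5.mono (by positivity) (by gcongr)⟩
    rw [← sum_div, div_lt_iff₀ hN'] at h6
    rw [card_split α a b hN hn1, div_lt_iff₀ hN']
    push_cast
    have h11 : ∑ k ∈ Ico 1 (2 * n), (#{p ∈ tri α a b N | p.1 * n / N = k} : ℝ) ≤
        ∑ k ∈ Ico 1 (2 * n), (#(sset α a b N (k / n) ((k + 1) / n)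
          ((k + 1) / n * ((min (k : ℝ) (2 * n - k) + 1) / n))) : ℝ) :=
      sum_le_sum fun k _ => by exact_mod_cast card_le_card (fib_sub hN hn1)
    linarith

theorem arc_neg {a b x : ℝ} : Arc a b x ↔ Arc (-b) (-a) (-x) := by
  constructor
  · rintro ⟨k, h1, h2⟩
    exact ⟨-k, by push_cast; linarith, by push_cast; linarith⟩
  · rintro ⟨k, h1, h2⟩
    exact ⟨-k, by push_cast; linarith, by push_cast; linarith⟩

theorem hcount_neg (α a b : ℝ) (N : ℕ) : hcount α a b N = hcount (-α) (-b) (-a) N := by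
  unfold hcount
  congr 1
  refine filter_congr fun p _ => and_congr_right fun _ => ?_
  rw [arc_neg, neg_div, neg_div]
  congr! 1
  ring

theorem hcount_add (α : ℝ) {a b : ℝ} (ha : a ≤ 0) (hb : 0 ≤ b) {N : ℕ} (hN : b - a < N) :
    hcount α a 0 N + hcount α 0 b N = hcount α a b N + hcount α 0 0 N := by
  have hN0 : (0 : ℝ) < N := by linarith
  have ha' : a / N ≤ 0 := div_nonpos_of_nonpos_of_nonneg ha hN0.le
  have hb' : 0 ≤ b / N := by positivity
  have hl : b / N - a / N < 1 := by rwa [← sub_div, div_lt_one hN0]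
  unfold hcount
  rw [← card_union_add_card_inter, ← filter_or, ← filter_and]
  congr 2
  · refine filter_congr fun p _ => ?_
    rw [← and_or_left, zero_div]
    refine and_congr_right fun _ => ⟨?_, ?_⟩
    · rintro (h | h)
      · exact h.mono le_rfl hb'
      · exact h.mono ha' le_rfl
    · rintro ⟨k, h1, h2⟩
      rcases le_total (α * p.1 ^ 2 - α * p.2 ^ 2 - k) 0 with h | h
      · exact Or.inl ⟨k, h1, h⟩
      · exact Or.inr ⟨k, h, h2⟩
  · refine filter_congr fun p _ => ?_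
    rw [zero_div]
    constructor
    · rintro ⟨⟨h0, k, h1, h2⟩, -, k', h3, h4⟩
      have h5 : (k : ℝ) - k' < 1 := by linarith
      have h6 : (0 : ℝ) ≤ k - k' := by linarith
      have h7 : k = k' := by
        have h8 : k - k' < 1 := by exact_mod_cast h5
        have h9 : 0 ≤ k - k' := by exact_mod_cast h6
        omega
      subst h7
      exact ⟨h0, k, h3, h2⟩
    · rintro ⟨h0, h⟩
      exact ⟨⟨h0, h.mono ha' le_rfl⟩, h0, h.mono le_rfl hb'⟩

theorem halfAll (h1 : BoxAll) (h2 : UIStmt) {c α : ℝ} (hc : 0 < c) (hα : Bad c α) {a b : ℝ}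
    (hab : a ≤ b) :
    Tendsto (fun N : ℕ => (hcount α a b N : ℝ) / N) atTop (𝓝 ((b - a) / 2)) := by
  have hneg : ∀ a b : ℝ, a ≤ b → b ≤ 0 →
      Tendsto (fun N : ℕ => (hcount α a b N : ℝ) / N) atTop (𝓝 ((b - a) / 2)) := by
    intro a b hab hb
    have := halfPos h1 h2 hc hα.neg (a := -b) (b := -a) (by linarith) (by linarith)
    simp only [← hcount_neg] at this
    rwa [show -a - -b = b - a by ring] at this
  rcases le_total 0 a with ha | ha
  · exact halfPos h1 h2 hc hα ha hab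
  rcases le_total b 0 with hb | hb
  · exact hneg a b hab hb
  have h := ((hneg a 0 ha le_rfl).add (halfPos h1 h2 hc hα le_rfl hb)).sub
    (halfPos h1 h2 hc hα le_rfl (le_refl (0 : ℝ)))
  rw [show (0 - a) / 2 + (b - 0) / 2 - (0 - 0) / 2 = (b - a) / 2 by ring] at h
  refine h.congr' ?_
  filter_upwards [tendsto_natCast_atTop_atTop.eventually_gt_atTop (b - a)] with N hN
  have e := congrArg (Nat.cast : ℕ → ℝ) (hcount_add α ha hb hN)
  push_cast at e
  rw [← add_div, ← sub_div]
  congr 1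
  linarith

theorem poissonAll (h1 : BoxStmt) (h2 : UIStmt) {c α : ℝ} (hc : 0 < c) (h : Bad c α) {a b : ℝ}
    (hab : a ≤ b) : Tendsto (fun N : ℕ => R2 a b N α) atTop (𝓝 (b - a)) := by
  have h1 := (halfAll (boxAll h1) h2 hc h hab).add (halfAll (boxAll h1) h2 hc h.neg hab)
  rw [add_halves] at h1
  refine h1.congr fun N => ?_
  rw [R2, ← add_div, one_div, inv_mul_eq_div, ← Nat.cast_add]
  congr 2
  refine Eq.trans ?_ (card_filter_add_card_filter_not (fun p : ℕ × ℕ => p.2 < p.1))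
  rw [filter_filter, filter_filter]
  unfold hcount
  congr 1
  · congr 1
    refine filter_congr fun p _ => ⟨fun h => ⟨⟨h.1.ne', h.2⟩, h.1⟩, fun h => ⟨h.2, h.1.2⟩⟩
  · refine card_bij (fun p _ => p.swap) (fun p hp => ?_) (fun p _ q _ h => Prod.swap_injective h)
      fun p hp => ⟨p.swap, ?_, rfl⟩
    · obtain ⟨h2, h3, k, h4⟩ := mem_filter.1 hp
      refine mem_filter.2 ⟨mem_product.2 (mem_product.1 h2).symm, ⟨h3.ne, k, ?_⟩, h3.le.not_gt⟩
      convert h4 using 2
      simp only [Prod.fst_swap, Prod.snd_swap]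
      ring
    · obtain ⟨h2, ⟨h3, k, h4⟩, h5⟩ := mem_filter.1 hp
      refine mem_filter.2 ⟨mem_product.2 (mem_product.1 h2).symm,
        lt_of_le_of_ne (not_lt.1 h5) h3, k, ?_⟩
      convert h4 using 2
      simp only [Prod.fst_swap, Prod.snd_swap]
      ring

end Pool.Agent.Lib.MP_30b5ba_nt.All
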